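import Pool.Agent.Helper5.UN.Goals

/-!
# Project UN, packet DIM
-/

set_option autoImplicit false

namespace Pool.Agent.Helper85.UN

open WeierstrassCurve Height Height.AdmissibleAbsValues MvPolynomial
open Pool.Agent.Helper29.BL Pool.Agent.Helper5.RO Pool.Agent.Helper5.UN

/-- roots of nontrivial quadratic equations with algebraic coefficients are algebraic -/
theorem quad_alg {F Ω : Type} [Field F] [Field Ω] [Algebra F Ω] (s t u ζ : Ω)
    (hs : IsAlgebraic F s) (ht : IsAlgebraic F t) (hu : IsAlgebraic F u)
    (h0 : ¬(s = 0 ∧ t = 0 ∧ u = 0)) (he : s - t * ζ + u * ζ ^ 2 = 0) : IsAlgebraic F ζ := by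
  let L := algebraicClosure F Ω
  have hL : Algebra.IsAlgebraic F L := inferInstance
  have hs' : s ∈ L := (mem_algebraicClosure_iff).2 hs
  have ht' : t ∈ L := (mem_algebraicClosure_iff).2 ht
  have hu' : u ∈ L := (mem_algebraicClosure_iff).2 hu
  have h : IsAlgebraic L ζ := by
    refine ⟨Polynomial.C ⟨s, hs'⟩ - Polynomial.C ⟨t, ht'⟩ * Polynomial.X +
      Polynomial.C ⟨u, hu'⟩ * Polynomial.X ^ 2, ?_, ?_⟩
    · intro h
      apply h0
      have c0 := congrArg (fun p => Polynomial.coeff p 0) h
      have c1 := congrArg (fun p => Polynomial.coeff p 1) h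
      have c2 := congrArg (fun p => Polynomial.coeff p 2) h
      simp [Polynomial.coeff_C, Polynomial.coeff_X] at c0 c1 c2
      exact ⟨congrArg Subtype.val c0, congrArg Subtype.val c1, congrArg Subtype.val c2⟩
    · simpa using he
  exact h.restrictScalars F

theorem pr_cases {n : ℕ} {S : Type} [CommRing S] (a : EE n → Bool) (ζ : EE n → S) (e : EE n) :
    pr a ζ e = ![ζ e, 1] ∨ pr a ζ e = ![1, ζ e] := by
  unfold pr
  split_ifs
  · exact Or.inl rfl
  · exact Or.inr rfl

theorem pr_ne {n : ℕ} {S : Type} [Field S] (a : EE n → Bool) (ζ : EE n → S) (e : EE n) :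
    pr a ζ e ≠ 0 := by
  intro h
  rcases pr_cases a ζ e with h1 | h1
  · have := congrFun (h1.symm.trans h) 1
    simp at this
  · have := congrFun (h1.symm.trans h) 0
    simp at this

/-- one block: all chart coordinates are algebraic over a field `F` if those of the unit vectors are -/
theorem block {K F Ω : Type} [Field K] [Field F] [Field Ω] [Algebra K F] [Algebra K Ω] [Algebra F Ω]
    [IsScalarTower K F Ω] (hA : G_ASM) (W : Affine K) [W.IsElliptic] {n : ℕ} (a : EE n → Bool)
    (ζ : EE n → Ω) (hR : RLP (algebraMap K Ω) W a ζ) (hun : ∀ i, IsAlgebraic F (ζ (un i))) :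
    ∀ e, IsAlgebraic F (ζ e) := by
  obtain ⟨-, -, hA3, hA4, -⟩ := hA
  have hK : ∀ x : K, IsAlgebraic F (algebraMap K Ω x) := by
    intro x
    rw [IsScalarTower.algebraMap_apply K F Ω]
    exact isAlgebraic_algebraMap _
  have hpr : ∀ e, IsAlgebraic F (ζ e) →
      IsAlgebraic F (pr a ζ e 0) ∧ IsAlgebraic F (pr a ζ e 1) := by
    intro e he
    rcases pr_cases a ζ e with h | h
    · rw [h]
      exact ⟨by simpa using he, by simpa using isAlgebraic_one⟩
    · rw [h]
      exact ⟨by simpa using isAlgebraic_one, by simpa using he⟩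
  -- the zero vector
  have hz : IsAlgebraic F (ζ 0) ∧ pr a ζ 0 = ![1, 0] := by
    have h0 := hR.zero
    rcases pr_cases a ζ 0 with h | h
    · rw [h] at h0
      simp at h0
    · rw [h] at h0
      have h1 : ζ 0 = 0 := by simpa using h0
      rw [h, h1]
      exact ⟨isAlgebraic_zero, rfl⟩
  -- negation
  have hneg : ∀ e, IsAlgebraic F (ζ e) → IsAlgebraic F (ζ (-e)) := by
    intro e he
    have h1 := hR.mnr 0 e e (-e) (by intro i; simp [vec]) (by intro i; simp [vec])
    have h2 : asm (algebraMap K Ω) W (sy (pr a ζ 0) (pr a ζ e)) = sy (pr a ζ e) (pr a ζ e) := by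
      rw [hz.2]
      funext i
      fin_cases i <;> simp [asm, sy] <;> ring
    rw [h2] at h1
    have h3 := (hA4 Ω (pr a ζ e) (pr a ζ e) (pr a ζ (-e)) (pr_ne _ _ _) (pr_ne _ _ _)
      (pr_ne _ _ _)).2 h1
    obtain ⟨g0, g1⟩ := hpr e he
    rcases pr_cases a ζ (-e) with h | h
    · rw [h] at h3
      simp only [Matrix.cons_val_zero, Matrix.cons_val_one, mul_one] at h3
      have hne : pr a ζ e 1 ≠ 0 := by
        intro h0
        apply pr_ne a ζ e
        funext i
        fin_cases i
        · simpa [h0] using h3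
        · exact h0
      have : ζ (-e) = pr a ζ e 0 * (pr a ζ e 1)⁻¹ := by
        field_simp
        linear_combination -h3
      rw [this]
      exact g0.mul g1.inv
    · rw [h] at h3
      simp only [Matrix.cons_val_zero, Matrix.cons_val_one, mul_one] at h3
      have hne : pr a ζ e 0 ≠ 0 := by
        intro h0
        apply pr_ne a ζ e
        funext i
        fin_cases i
        · exact h0
        · simpa [h0] using h3.symm
      have : ζ (-e) = pr a ζ e 1 * (pr a ζ e 0)⁻¹ := by
        field_simp
        linear_combination h3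
      rw [this]
      exact g1.mul g0.inv
  -- one nonzero entry
  have hsingle : ∀ (i : Fin n) (c : SignType), IsAlgebraic F (ζ (Pi.single i c)) := by
    intro i c
    match c with
    | 0 => simpa using hz.1
    | 1 => exact hun i
    | -1 =>
      have h := hneg _ (hun i)
      have h2 : -(un i : EE n) = Pi.single i (-1) := by
        funext j
        unfold un
        by_cases hj : j = i
        · subst hj
          simp
        · simp [Pi.single_eq_of_ne hj]
      rwa [h2] at h
  -- the step
  have hstep : ∀ e e' e'' : EE n, (∀ i, vec e'' i = vec e i + vec e' i) →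
      IsAlgebraic F (ζ e) → IsAlgebraic F (ζ e') → IsAlgebraic F (ζ e'') := by
    intro e e' e'' hv h1 h2
    have hq := hR.quad e e' e'' hv
    obtain ⟨p0, p1⟩ := hpr e h1
    obtain ⟨q0, q1⟩ := hpr e' h2
    have hsy : ∀ i, IsAlgebraic F (sy (pr a ζ e) (pr a ζ e') i) := by
      intro i
      fin_cases i
      · exact p0.mul q0
      · exact (p0.mul q1).add (p1.mul q0)
      · exact p1.mul q1
    have hasm : ∀ i, IsAlgebraic F (asm (algebraMap K Ω) W (sy (pr a ζ e) (pr a ζ e')) i) := by
      intro i
      have s0 := hsy 0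
      have s1 := hsy 1
      have s2 := hsy 2
      generalize sy (pr a ζ e) (pr a ζ e') = w at s0 s1 s2
      have n2 : IsAlgebraic F (2 : Ω) := by
        have := isAlgebraic_algebraMap (R := F) (A := Ω) (2 : F)
        rwa [map_ofNat] at this
      have n4 : IsAlgebraic F (4 : Ω) := by
        have := isAlgebraic_algebraMap (R := F) (A := Ω) (4 : F)
        rwa [map_ofNat] at this
      fin_cases i
      · exact (((s0.pow 2).sub (((hK W.b₄).mul s0).mul s2)).sub (((hK W.b₆).mul s1).mul s2)).sub
          ((hK W.b₈).mul (s2.pow 2))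
      · exact ((((n2.mul s1).mul s0).add (((hK W.b₂).mul s0).mul s2)).add
          (((hK W.b₄).mul s1).mul s2)).add ((hK W.b₆).mul (s2.pow 2))
      · exact (s1.pow 2).sub ((n4.mul s0).mul s2)
    have hne : asm (algebraMap K Ω) W (sy (pr a ζ e) (pr a ζ e')) ≠ 0 :=
      hA3 K Ω (algebraMap K Ω) W _
        (hA4 Ω (pr a ζ e) (pr a ζ e') (pr a ζ e') (pr_ne _ _ _) (pr_ne _ _ _) (pr_ne _ _ _)).1
    generalize asm (algebraMap K Ω) W (sy (pr a ζ e) (pr a ζ e')) = w at hq hasm hne
    have hne' : ¬(w 0 = 0 ∧ w 1 = 0 ∧ w 2 = 0) := by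
      rintro ⟨w0, w1, w2⟩
      apply hne
      funext i
      fin_cases i
      · exact w0
      · exact w1
      · exact w2
    rcases pr_cases a ζ e'' with h | h
    · rw [h] at hq
      simp only [Matrix.cons_val_zero, Matrix.cons_val_one] at hq
      exact quad_alg (w 0) (w 1) (w 2) _ (hasm 0) (hasm 1) (hasm 2) hne' (by linear_combination hq)
    · rw [h] at hq
      simp only [Matrix.cons_val_zero, Matrix.cons_val_one] at hq
      exact quad_alg (w 2) (w 1) (w 0) _ (hasm 2) (hasm 1) (hasm 0)
        (fun h => hne' ⟨h.2.2, h.2.1, h.1⟩) (by linear_combination hq)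
  -- induction on the support
  have main : ∀ (k : ℕ) (e : EE n), (Finset.univ.filter fun i => e i ≠ 0).card = k →
      IsAlgebraic F (ζ e) := by
    intro k
    induction k with
    | zero =>
      intro e he
      have : e = 0 := by
        funext i
        by_contra hi
        have : i ∈ Finset.univ.filter fun i => e i ≠ 0 := by simpa using hi
        rw [Finset.card_eq_zero.1 he] at this
        simp at this
      rw [this]
      exact hz.1
    | succ k ih =>
      intro e he
      obtain ⟨i, hi⟩ : (Finset.univ.filter fun i => e i ≠ 0).Nonempty := by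
        rw [← Finset.card_pos, he]
        omega
      have hi' : e i ≠ 0 := by simpa using hi
      refine hstep (Function.update e i 0) (Pi.single i (e i)) e ?_ (ih _ ?_) (hsingle i (e i))
      · intro j
        by_cases hj : j = i
        · subst hj
          simp [vec]
        · simp [vec, Function.update_of_ne hj, Pi.single_eq_of_ne hj]
      · have : (Finset.univ.filter fun j => Function.update e i 0 j ≠ 0) =
            (Finset.univ.filter fun j => e j ≠ 0).erase i := by
          ext j
          by_cases hj : j = i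
          · subst hj
            simp
          · simp [Function.update_of_ne hj, hj]
        rw [this, Finset.card_erase_of_mem hi, he]
        rfl
  intro e
  exact main _ e rfl

theorem gDIM (hA : G_ASM) (hH : G_HVB) : G_DIM := by
  intro K _ B _ W _ n a Ω _ _ ζ hR ι D s f hf hC hz
  obtain ⟨-, -, hH3, -⟩ := hH
  classical
  -- the normalized pairs
  let ξ : IX n → Ω := fun i => ζ ⟨i.1, un i.2⟩
  let κ : IX n → Ω := fun i => if a i.1 (un i.2) then 1 else if ξ i = 0 then 1 else (ξ i)⁻¹
  let y : IX n → Fin 2 → Ω := fun i => κ i • pr (a i.1) (fun e => ζ ⟨i.1, e⟩) (un i.2)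
  have hy : ∀ i, (a i.1 (un i.2) = true ∧ y i = ![ξ i, 1]) ∨
      (a i.1 (un i.2) = false ∧ ξ i = 0 ∧ y i = ![1, 0]) ∨
      (a i.1 (un i.2) = false ∧ ξ i ≠ 0 ∧ y i = ![(ξ i)⁻¹, 1]) := by
    intro i
    rcases h : a i.1 (un i.2) with _ | _
    · right
      by_cases h0 : ξ i = 0
      · left
        refine ⟨rfl, h0, ?_⟩
        simp only [y, κ, pr, h]
        simp only [h0, if_true, one_smul, Bool.false_eq_true, if_false]
        have : ζ ⟨i.1, un i.2⟩ = 0 := h0
        rw [this]
      · right
        refine ⟨rfl, h0, ?_⟩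
        simp only [y, κ, pr, h]
        simp only [h0, if_false, Bool.false_eq_true]
        funext j
        fin_cases j
        · simp
        · have : (ξ i)⁻¹ * ζ ⟨i.1, un i.2⟩ = 1 := inv_mul_cancel₀ h0
          simpa using this
    · left
      refine ⟨rfl, ?_⟩
      simp only [y, κ, pr, h, if_true, one_smul]
      rfl
  have h1 : ∀ i, y i 1 = 1 ∨ y i = ![1, 0] := by
    intro i
    rcases hy i with h | h | h
    · left
      rw [h.2]
      rfl
    · right
      exact h.2.2
    · left
      rw [h.2.2]
      rfl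
  have h2 : ∀ j, hv (algebraMap K Ω) (fun _ => D) (f j) y = 0 := by
    intro j
    have := hH3 K Ω (algebraMap K Ω) (IX n) (fun _ => D) (f j) κ
      (fun i => pr (a i.1) (fun e => ζ ⟨i.1, e⟩) (un i.2)) (hf j)
    rw [hz j, mul_zero] at this
    exact this
  obtain ⟨T, hT, hT2⟩ := hC Ω y h1 h2
  refine ⟨T, hT, ?_⟩
  have hun : ∀ t (i : Fin (n t)),
      IsAlgebraic (IntermediateField.adjoin K (T : Set Ω)) (ζ ⟨t, un i⟩) := by
    intro t i
    have h3 := hT2 ⟨t, i⟩
    rcases hy ⟨t, i⟩ with h | h | h
    · rw [h.2] at h3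
      exact h3
    · have : ζ ⟨t, un i⟩ = 0 := h.2.1
      rw [this]
      exact isAlgebraic_zero
    · rw [h.2.2] at h3
      have h4 := h3.inv
      simpa [ξ] using h4
  rintro ⟨t, e⟩
  exact block (F := IntermediateField.adjoin K (T : Set Ω)) hA (W t) (a t) (fun e => ζ ⟨t, e⟩)
    (hR t) (hun t) e

end Pool.Agent.Helper85.UN
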